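import Pool.Agent.R908.SS.ElemFields

/-!
# The semisimplicity conjecture and smooth affine cubic hypersurfaces over `ℚ`

`E` is the field of coefficients (`ℚ_ℓ`). For every field `k`, `T k` is the `ℓ`-adic cohomology with
compact supports of the schemes over `k`: `(T k).H X f n w` is the graded piece `gr^W_w H^n_c(X)` of the
weight filtration, with the action of the absolute Galois group of `k`. `S k` is the class of the smooth
projective schemes over `k`; for these, `gr^W_n H^n_c(X) = H^n(X)`.

A finite family `g = (g_1, …, g_m)` of polynomials in the variables `x_1, …, x_N` is *elementary* if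
each `g_k` is of one of the forms `x_a x_b - x_c`, `x_a + x_b - x_c`, `x_a - 1`. The hypersurface

  `J_g : y_1 g_1(x) + … + y_m g_m(x) = 1`

in the affine space of dimension `N + m` is smooth of degree at most three
(`IsElementary.isSmoothCubic`); it is given by combinatorial data only and is defined over `ℤ`.

**Theorem.** The following are equivalent:

1. for every field `k` which is finitely generated over `ℚ`, every smooth projective `X` over `k` and
   every `n`, the representation `H^n(X)` of the Galois group is semisimple;
2. for every `d` and every smooth hypersurface `J` of degree at most three in the affine space of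
   dimension `d + 1` over `ℚ`, the representation `gr^W_(d-1) H^d_c(J)` is semisimple;
3. for all elementary families `g` and all `n`, the representation `gr^W_(n-1) H^n_c(J_g)` of the Galois
   group of `ℚ` is semisimple.

The properties of `ℓ`-adic cohomology which are used are stated as hypotheses. They are

* `IsCohomology`: `H^n_c(Spec ℚ) = 0` for `n ≠ 0`; `H^n_c(X) = 0` unless `0 ≤ n ≤ 2 dim X`; the exact
  sequence `H^n_c(X) → H^n_c(Z) → H^(n+1)_c(X ∖ Z)`; `H^(n+2r)_c(E') = H^n_c(X)(-r)` for an affine
  bundle `E' → X` of rank `r` (all this for the graded pieces of the weight filtration, over `ℚ`);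
* `Artin`, `WeakLefschetz` (used only for 2): for a smooth affine cubic hypersurface `J` of dimension
  `d`, `H^n_c(J) = 0` for `n < d`, and `H^n_c(J)` is for `n > d ≥ 1` a quotient of
  `H^(n-2)_c(J')(-1)`, where `J'` is a general hyperplane section of `J` (again a smooth affine cubic
  hypersurface);
* `HasWeights`: `gr^W_w H^n_c(X)` is a subquotient of `H^w(Y)` for some smooth projective `Y` (Deligne);
* `HasTorsors`: every smooth projective `X` has an affine bundle `E' → X` with `E'` affine (Jouanolou);
* `Restriction`: for a number field `L` and `X` smooth projective over `L`, the cohomology of `X` as a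
  scheme over `ℚ` is the induced representation;
* `Specialization`: over a field which is finitely generated over `ℚ`, the image of the Galois
  representation on `H^n(X)` is also the image of the Galois representation on `H^n(Y)` for some
  smooth projective `Y` over a number field (Serre, Terasoma; Hilbert irreducibility).

The proof of `3 ⇒ 1`. By `Specialization` and `Restriction` one may take `k = ℚ`. Let `E' → X` be as
in `HasTorsors`, of rank `r`. Every finitely generated `ℚ`-algebra has a presentation by elementary
relations, at least one of them (clear denominators and write the equations as straight-line programs);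
so `E'` is a closed subscheme of an affine space `𝔸^N` defined by an elementary family `g`. Let `U` be
its complement. As `H^i_c(𝔸^N) = 0` for `i ≠ 2N` and `H^(2N)_c(E') = 0`, the group
`H^n(X)(-r) = H^(n+2r)_c(E')` is contained in `H^(n+2r+1)_c(U)`, and `J_g` is an affine bundle over `U`
of rank `m - 1`. So, up to a Tate twist, `H^n(X)` is contained in `gr^W_(i-1) H^i_c(J_g)`,
`i = n + 2r + 2m - 1`, and (for `2 ⇒ 3`) hyperplane sections of `J_g` lead to the middle cohomology.
Semisimplicity is inherited by subrepresentations and quotients, but not by extensions, so it is
essential that no extensions occur here.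
-/

set_option autoImplicit false

open AlgebraicGeometry Pool.Agent.R904.CU Pool.Agent.R908.SS

namespace Pool.Agent.Results.MP_b4801b_ag.CubicHypersurfaces

/-- The semisimplicity of `H^n(X)` for all smooth projective `X` over all fields `k` which are finitely
generated over `ℚ` is equivalent to the semisimplicity of `gr^W_(d-1) H^d_c(J)` for the smooth affine
hypersurfaces `J` over `ℚ` of degree at most three, `d = dim J`, and to the semisimplicity of
`gr^W_(n-1) H^n_c(J_g)` for the explicit hypersurfaces `J_g : ∑ yₖ gₖ(x) = 1` of all elementary families
`g`. -/
theorem result (E : Type) [Field E] (T : CohomologyOverFields E) (c : Gal ℚ → Eˣ)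
    (S : ∀ (k : Type) [Field k], SchProp k) (hT : (T ℚ).IsCohomology c)
    (hA : (T ℚ).Artin) (hL : (T ℚ).WeakLefschetz c) (hS : HasTorsors (S ℚ))
    (hW : (T ℚ).HasWeights (S ℚ)) (hR : Restriction T S) (hP : Specialization T S) :
    List.TFAE [
      ∀ (k : Type) [Field k] [CharZero k], Algebra.EssFiniteType ℚ k → ∀ (X : Scheme.{0})
        (f : X ⟶ Spec (.of k)), S k X f → ∀ n : ℤ, ((T k).H X f n n).Semisimple,
      ∀ (σ : Type) [Fintype σ] (d : ℕ), Fintype.card σ = d + 1 → ∀ F : MvPolynomial σ ℚ,
        IsSmoothCubic F → ((T ℚ).ofHyp F d (d - 1)).Semisimple,
      ∀ (σ κ : Type) [Fintype σ] [Fintype κ] (g : κ → MvPolynomial σ ℚ), IsElementary g →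
        ∀ n : ℤ, ((T ℚ).ofHyp (bigPoly g) n (n - 1)).Semisimple] := by
  tfae_have 1 ↔ 2 := finitely_generated_fields hT hA hL hS hW hR hP
  tfae_have 1 → 3 := fun h => (number_fields_elementary hT hS hW hR).1
    fun L _ _ X f hX n => h L inferInstance X f hX n
  tfae_have 3 → 1 := by
    intro h k _ _ hk X f hX n
    obtain ⟨L, _, _, Y, g, hY, hs⟩ := hP k hk X f hX n
    exact ((number_fields_elementary hT hS hW hR).2 h L Y g hY n).sameImage hs
  tfae_finish

end Pool.Agent.Results.MP_b4801b_ag.CubicHypersurfaces
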