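import Pool.Agent.R932.SQ.Main

/-!
# Semisimplicity at every prime number from the size of the image at one prime number

Let `X` be a smooth projective variety over a finitely generated field `k` of characteristic zero
with a rational point `Spec ℚ → T` of a model `T` of `k` over which `X` is spread out (for example
`k = ℚ`), `w > 0`, and for all prime numbers `ℓ` let `V_ℓ` be the `w`-th `ℓ`-adic cohomology of `X`,
or a part of it that is cut out by algebraic correspondences, for example the primitive part or the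
orthogonal complement of the algebraic classes. `Γ` is the fundamental group of `T` (or the Galois
group of `k`), and `θ` the homomorphism from the absolute Galois group of `ℚ` to `Γ` given by the
point. By the hard Lefschetz theorem, Poincare duality and the Weil conjectures, `V_ℓ` has the
properties in `IsPureSystem`.

**Theorem.** Suppose that at ONE prime number `ℓ₀` the Lie algebra of the image of the absolute Galois
group of `ℚ` in `GL (V_ℓ₀)`
* contains the Lie algebra of all isometries of the form, or more generally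
* contains one element `X`, of multiplier `c`, without isotropic relation: its eigenvalues are simple,
  and `2 ∑ I ≠ |I| c` for every nonempty set `I` of eigenvalues which does not contain `t` and `c - t`.

Then `V_ℓ` is a semisimple representation of `Γ` for EVERY prime number `ℓ`; the orthogonal complement
of every stable subspace is a stable complement.

So for varieties over the rational numbers the conjecture of Grothendieck and Serre follows for all
prime numbers `ℓ`, without exception, from the size of the image at one prime number. Number fields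
are covered by restriction of scalars to the rational numbers (the induced representation). By
Hilbert's irreducibility theorem, applied at `ℓ₀` only, the theorem can be used for the members of a
family over a rational variety with big monodromy, outside of a thin set of parameters. Further
examples of Lie algebras that contain an element without isotropic relation: forms with real
multiplication, unitary groups with their centre.

Idea of the proof. An isotropic stable subspace `W` of `V_ℓ` gives a relation between the eigenvalues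
of EVERY Frobenius element: the determinant of `W` is the square root of a power of the similitude
character, up to a character of finite order (theorem of Kronecker and Weber and `ℓ`-adic six
exponentials theorem, starting file `OneFrobenius`). By Chebotarev's density theorem there are
Frobenius elements (away from `ℓ` and `ℓ₀`) whose image at `ℓ₀` is close to `1` in the direction of `X`;
by Krasner's lemma their eigenvalues are close to `1 + ℓ₀ ^ k t` for the eigenvalues `t` of `X`. As
numbers close to `1` are no roots of unity, a relation between the eigenvalues of such a Frobenius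
element would give a relation `2 ∑ I = |I| c`. For the first condition one needs elements of the Lie
algebra of any nondegenerate form over the field of `ℓ₀`-adic numbers whose nonzero eigenvalues have
pairwise different absolute values up to sign.
-/

set_option autoImplicit false

namespace Pool.Agent.Results.MP_b4801b_ag.EveryPrimeFromOnePrime

open Matrix Polynomial Filter Topology NumberField IsDedekindDomain

/-- the absolute Galois group, with the profinite (Krull) topology -/
abbrev AbsoluteGaloisGroup (K : Type) [Field K] : Type := Gal(AlgebraicClosure K/K)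

/-- `σ` is a Frobenius element at the prime `v` of `K`: there is a maximal ideal `Q` above `v` of the
ring of all algebraic integers with `σ x ≡ x ^ N(v)` modulo `Q` for all `x` -/
def IsFrobenius {K : Type} [Field K] [NumberField K] (v : HeightOneSpectrum (𝓞 K))
    (σ : AbsoluteGaloisGroup K) : Prop :=
  ∃ Q : Ideal (𝓞 (AlgebraicClosure K)), Q.IsMaximal ∧
    Q.comap (algebraMap (𝓞 K) (𝓞 (AlgebraicClosure K))) = v.asIdeal ∧
    ∀ x : 𝓞 (AlgebraicClosure K), σ • x - x ^ Ideal.absNorm v.asIdeal ∈ Q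

/-- Representations `ρ ℓ` of a group `Γ` on the `N`-dimensional spaces over the fields of `ℓ`-adic
numbers, for all prime numbers `ℓ`, and a homomorphism `θ` from the absolute Galois group of `ℚ` to
`Γ`, such that
* `ρ ℓ` is continuous on the Galois group of `ℚ`,
* `Γ` acts by similitudes, with factor `χ ℓ`, of the nondegenerate symmetric or alternating form with
  matrix `J ℓ`,
* the representations are pure of weight `w` and form a compatible system: outside of the finite set
  `S` of places the inverse of a Frobenius element at `v` acts for all `ℓ` not divisible by `v` with the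
  characteristic polynomial `P v`, which has integral coefficients and complex roots of absolute value
  `N(v) ^ (w / 2)`, and with similitude factor `N(v) ^ w`. -/
structure IsPureSystem {Γ : Type} [Group Γ] (θ : AbsoluteGaloisGroup ℚ →* Γ) (N w : ℕ)
    (S : Set (HeightOneSpectrum (𝓞 ℚ))) (P : HeightOneSpectrum (𝓞 ℚ) → ℤ[X])
    (ρ : ∀ (ℓ : ℕ) [Fact ℓ.Prime], Γ →* Matrix (Fin N) (Fin N) ℚ_[ℓ])
    (J : ∀ (ℓ : ℕ) [Fact ℓ.Prime], Matrix (Fin N) (Fin N) ℚ_[ℓ])
    (χ : ∀ (ℓ : ℕ) [Fact ℓ.Prime], Γ → ℚ_[ℓ]) : Prop where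
  finite : S.Finite
  monic : ∀ v ∉ S, (P v).Monic
  weight : ∀ v ∉ S, ∀ z : ℂ, aeval z (P v) = 0 → ‖z‖ ^ 2 = (Ideal.absNorm v.asIdeal : ℝ) ^ w
  continuous : ∀ (ℓ : ℕ) [Fact ℓ.Prime], Continuous fun g => ρ ℓ (θ g)
  symm_or_alt : ∀ (ℓ : ℕ) [Fact ℓ.Prime], (J ℓ)ᵀ = J ℓ ∨ (J ℓ)ᵀ = -J ℓ
  nondegenerate : ∀ (ℓ : ℕ) [Fact ℓ.Prime], (J ℓ).det ≠ 0
  similitude : ∀ (ℓ : ℕ) [Fact ℓ.Prime] (g : Γ), (ρ ℓ g)ᵀ * J ℓ * ρ ℓ g = χ ℓ g • J ℓ
  charpoly : ∀ (ℓ : ℕ) [Fact ℓ.Prime], ∀ v ∉ S, (ℓ : 𝓞 ℚ) ∉ v.asIdeal →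
    ∀ σ : AbsoluteGaloisGroup ℚ, IsFrobenius v σ →
      (ρ ℓ (θ σ⁻¹)).charpoly = (P v).map (algebraMap ℤ ℚ_[ℓ])
  factor : ∀ (ℓ : ℕ) [Fact ℓ.Prime], ∀ v ∉ S, (ℓ : 𝓞 ℚ) ∉ v.asIdeal →
    ∀ σ : AbsoluteGaloisGroup ℚ, IsFrobenius v σ →
      χ ℓ (θ σ⁻¹) = (Ideal.absNorm v.asIdeal : ℚ_[ℓ]) ^ w

/-- `X` is in the Lie algebra of the image of `ρ`: it is the limit of `(ρ (σ n) - 1) / ℓ ^ n` for
elements `σ n` of the group -/
def InLieAlgebraOfImage (ℓ : ℕ) [Fact ℓ.Prime] {N : ℕ} {G : Type} [Group G]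
    (ρ : G →* Matrix (Fin N) (Fin N) ℚ_[ℓ]) (X : Matrix (Fin N) (Fin N) ℚ_[ℓ]) : Prop :=
  ∃ σ : ℕ → G, Tendsto (fun n : ℕ => ((ℓ : ℚ_[ℓ]) ^ n)⁻¹ • (ρ (σ n) - 1)) atTop (𝓝 X)

/-- the matrix `X` has simple eigenvalues, and `2 ∑ I ≠ |I| c` for every nonempty set `I` of
eigenvalues which does not contain `t` and `c - t` -/
def HasNoIsotropicRelation {ℓ : ℕ} [Fact ℓ.Prime] {N : ℕ} (X : Matrix (Fin N) (Fin N) ℚ_[ℓ])
    (c : ℚ_[ℓ]) : Prop :=
  X.charpoly.Separable ∧ ∀ I : Finset (AlgebraicClosure ℚ_[ℓ]), I.Nonempty →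
    (∀ t ∈ I, aeval t X.charpoly = 0 ∧ algebraMap ℚ_[ℓ] (AlgebraicClosure ℚ_[ℓ]) c - t ∉ I) →
    2 * ∑ t ∈ I, t ≠
      (I.card : AlgebraicClosure ℚ_[ℓ]) * algebraMap ℚ_[ℓ] (AlgebraicClosure ℚ_[ℓ]) c

/-- every stable subspace has a stable complement, namely its orthogonal complement for the form with
matrix `J` -/
def IsSemisimpleByOrthogonality {F : Type} [Field F] {N : ℕ} {Γ : Type} [Group Γ]
    (ρ : Γ →* Matrix (Fin N) (Fin N) F) (J : Matrix (Fin N) (Fin N) F) : Prop :=
  ∀ U : Submodule F (Fin N → F), (∀ g : Γ, ∀ x ∈ U, ρ g *ᵥ x ∈ U) →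
    IsCompl U ((Matrix.toBilin' J).orthogonal U) ∧
      ∀ g : Γ, ∀ x ∈ (Matrix.toBilin' J).orthogonal U, ρ g *ᵥ x ∈ (Matrix.toBilin' J).orthogonal U

theorem result {Γ : Type} [Group Γ] (θ : AbsoluteGaloisGroup ℚ →* Γ) {N w : ℕ} (hw : 0 < w)
    (S : Set (HeightOneSpectrum (𝓞 ℚ))) (P : HeightOneSpectrum (𝓞 ℚ) → ℤ[X])
    (ρ : ∀ (ℓ : ℕ) [Fact ℓ.Prime], Γ →* Matrix (Fin N) (Fin N) ℚ_[ℓ])
    (J : ∀ (ℓ : ℕ) [Fact ℓ.Prime], Matrix (Fin N) (Fin N) ℚ_[ℓ])
    (χ : ∀ (ℓ : ℕ) [Fact ℓ.Prime], Γ → ℚ_[ℓ]) (h : IsPureSystem θ N w S P ρ J χ)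
    (ℓ₀ : ℕ) [Fact ℓ₀.Prime]
    (hbig : (∀ X, Xᵀ * J ℓ₀ + J ℓ₀ * X = 0 → InLieAlgebraOfImage ℓ₀ ((ρ ℓ₀).comp θ) X) ∨
      ∃ (X : Matrix (Fin N) (Fin N) ℚ_[ℓ₀]) (c : ℚ_[ℓ₀]),
        InLieAlgebraOfImage ℓ₀ ((ρ ℓ₀).comp θ) X ∧ Xᵀ * J ℓ₀ + J ℓ₀ * X = c • J ℓ₀ ∧
        HasNoIsotropicRelation X c) :
    ∀ (ℓ : ℕ) [Fact ℓ.Prime], IsSemisimpleByOrthogonality (ρ ℓ) (J ℓ) := by
  intro ℓ hℓ U hU
  have hfr : Module.finrank ℚ ℚ = 1 := Module.finrank_self ℚ
  rcases hbig with hfull | ⟨X, c, hX, hc, hno⟩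
  · exact Pool.Agent.R932.SQ.semisimple_full hfr θ hw h.finite P
      (fun v hv => ⟨h.monic v hv, h.weight v hv⟩) ρ (fun ℓ _ => h.continuous ℓ) J
      (fun ℓ _ => h.symm_or_alt ℓ) (fun ℓ _ => h.nondegenerate ℓ) χ (fun ℓ _ => h.similitude ℓ)
      (fun ℓ _ v hv hvℓ σ hσ => ⟨h.charpoly ℓ v hv hvℓ σ hσ, h.factor ℓ v hv hvℓ σ hσ⟩) ℓ₀ hfull ℓ
      U hU
  · exact Pool.Agent.R932.SQ.semisimple_all hfr θ hw h.finite P
      (fun v hv => ⟨h.monic v hv, h.weight v hv⟩) ρ (fun ℓ _ => h.continuous ℓ) J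
      (fun ℓ _ => h.symm_or_alt ℓ) (fun ℓ _ => h.nondegenerate ℓ) χ (fun ℓ _ => h.similitude ℓ)
      (fun ℓ _ v hv hvℓ σ hσ => ⟨h.charpoly ℓ v hv hvℓ σ hσ, h.factor ℓ v hv hvℓ σ hσ⟩) ℓ₀ hX hc
      hno ℓ U hU

end Pool.Agent.Results.MP_b4801b_ag.EveryPrimeFromOnePrime
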