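import Pool.Agent.R940.VConv

/-!
# Semisimplicity of the cohomology, or an excess of Tate classes

Moonen has proved (in characteristic zero) that the Tate conjecture, for all varieties, implies the
semisimplicity of the `ℓ`-adic cohomology. Here is an effective and quantitative form for a
single variety `X`.

Let `X` be an abelian variety (or a smooth projective variety whose even Künneth projectors are
algebraic), of dimension `d` and with total Betti number `b`, over a field `k` finitely generated
over its prime field, and `r ≥ 1`. Let `Y` be another such variety such that the duals of the
characters which occur in the cohomology of `X ^ r` occur in the cohomology of `Y`, up to a Tate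
twist and a finite extension of `k` (`DualsIn`). If `k` is a number field, this
holds for a suitable abelian variety `Y` with complex multiplication, by the theory of Hodge-Tate
characters and of Hecke characters (a theorem in the literature, used also by Moonen; it is a
hypothesis here).

Part 1: either each Galois stable subspace of dimension `r` of each `H^i(X)` has a Galois stable
complement in `H^i(X)`, or the strong Tate conjecture is false for `Y × X ^ r` and there is an
`e ≤ dim Y` such that for ALL `n ≥ 1`

  `t e n ≥ s e n + (1 - r b ^ (2 r + 2) log (n + 2) / n) ρ n`,

where `t e n` is the dimension of the space of the Tate classes of codimension `(n + 1) d + e` on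
`Y × X ^ (2 n + 2)`, `s e n` the rank of the group of cycles of this codimension modulo numerical
equivalence and `ρ n > 0` the rank of the group of the cycles of codimension `(n + 1) d` on
`X ^ (2 n + 2)` modulo numerical equivalence. (It is known, by the earlier files, that
`s e n ≤ dim H(Y) * ρ n`, so the excess is a positive proportion of all cycles.)

Part 2: if this condition on `Y` holds for all `r ≤ b`, then all `H^i(X)` are semisimple
representations, or there is an `e ≤ dim Y` such that for ALL `n ≥ 1`

  `t e n ≥ s e n + (1 - b ^ (2 b + 3) log (n + 2) / n) ρ n`.

So the semisimplicity of all `H^i(X)` follows from `dim Y + 1` numerical inequalities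
on ONE product `Y × X ^ (2 n + 2)`, with `n` explicit in terms of `b`, which allow for an error that
is a definite proportion of the number of all cycles; and a single subrepresentation of some
`H^i(X)` without complement forces at least about the proportion `1 / (dim H(Y) + 1)` of the Tate
classes on `Y × X ^ (2 n + 2)`, for all large `n`, not to be accounted for by cycles.

The theorem holds for any group `Γ` that acts on a Weil cohomology like a Galois group (`GSys`);
no finiteness or continuity of the action is assumed. The proof: let `V` be a stable
subspace of dimension `r`. The class of `det V` in `H(X ^ r)` times an eigenvector with the dual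
character in the cohomology of `Y` is a Tate class on `Y × X ^ r`. If it is not
orthogonal to the cycles, a cycle gives an alternating form on `H^i(X)` which is nonzero on
`V` and invariant up to a character under a subgroup of finite index, and the vectors orthogonal
to `V` with respect to it form a complement of `V`; an average over the cosets of the subgroup
gives a complement stable under `Γ`. If it is orthogonal to the cycles, it is numerically trivial
or not algebraic, and its tensor products with operators on the powers of `H(X)` give the
excess.
-/

open CategoryTheory AlgebraicGeometry

universe u v w

namespace Pool.Agent.Results.MP_b4801b_ag.SemisimpleOrExcess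

open Pool.Agent.H914 Pool.Agent.H447 Pool.Agent.W534 Pool.Agent.Y163 Pool.Agent.R940
  VarClass Obj

/-- The stable subspaces of dimension `κ + 1` of the cohomology of `X` have stable complements, or
the Tate classes on all products `Y × X ^ (2 n + 2)` exceed the cycles; and the cohomology of `X` is
semisimple, or the Tate classes exceed the cycles with an error term that depends only on
`b = dim H(X)`. -/
theorem result {k : Type u} [Field k] {𝒱 : VarClass k} {ops : CycleOps 𝒱}
    (W : WeilCohomology.{u, v} ops) {Γ : Type w} [Group Γ] (G : GSys W Γ)
    (X Y : 𝒱.Obj) (hX : SignStd W X) (hY : SignStd W Y)
    (D : X.Cycles) (hD : X.IsCyc 1 D) (hbig : Big ops X D) :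
    (∀ κ, DualsIn G (pw X κ) Y → SplitsG G X (κ + 1) ∨ ¬ StrongTateG G (Y.prod (pw X κ)) ∧
      ExcessG G Y X ((κ + 1) * betti W X ^ (2 * κ + 4))) ∧
    ((∀ κ, κ < betti W X → DualsIn G (pw X κ) Y) →
      SemisimpleG G X ∨ ExcessG G Y X (betti W X ^ (2 * betti W X + 3))) :=
  ⟨fun _ h => splits_or_excess hX hY hD hbig h,
    fun h => semisimple_or_excess hX hY hD hbig h⟩

end Pool.Agent.Results.MP_b4801b_ag.SemisimpleOrExcess
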