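import Mathlib
import Pool.Agent.R931.ZF.Pol
import Pool.Agent.R931.ZF.Examples

/-!
# A zero-one law for the semisimplicity of `ℓ`-adic cohomology

Let `X` be a smooth projective variety over a finitely generated field `k` of characteristic zero and let
`V_ℓ`, for all primes `ℓ`, be the `ℓ`-adic cohomology of `X` in one degree, or a part of it which is cut out by
algebraic correspondences, with the polarization form (Poincaré duality and hard Lefschetz), of dimension `N`.
`Γ` is the fundamental group of a model of `X` over a number field `K`, and `s` is given by a `K`-rational point
of the base (for instance `k = K` and `Γ` the Galois group).  Outside of a finite set `S` of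
places `v` there is good reduction, with Frobenius polynomials `P v` independent of `ℓ`, and
`(q v) ^ c` times a Frobenius eigenvalue is an algebraic integer.  Let `r` be the maximal number of
multiplicatively independent Frobenius eigenvalues at a place (the rank of the `ℓ`-adic monodromy
groups, Serre).

The *relations* between numbers `z_1, ..., z_N` are the vectors `n` of integers such that the product of
the `z_i ^ {n_i}` is a root of unity.  Let `R` be a set of vectors which has rank at most `N - r`
(the relations between the Frobenius eigenvalues at a place of maximal rank), and let `A` be the group of
permutations of `{1, ..., N}` which preserve `R`.  An element `γ` of the image of the Galois group at a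
prime `p` has the *type* `a` (with respect to `p` and to an automorphism `τ` of the algebraic closure
of `ℚ_p`) if the eigenvalues of `ρ_p(γ)` can be written as `z_1, ..., z_N` with relations `R` and
`τ (z_i) = z_{a(i)}` (no quotient of two of them being a root of unity).  In the same way we define the types
of the elements of the Lie algebra of the image, with the linear relations between the eigenvalues.
A *duality* is an element `c` of `A` such that all the products `z_i * z_{c(i)}` are equal modulo the relations;
for the relations between Frobenius eigenvalues there is only one duality, the complex conjugation.

**Theorem.**  Let `T j` (for `j` in any index set) be sets of types which occur at primes `p j` for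
automorphisms `τ j`.  Suppose that the following condition on finite permutation groups is satisfied: if `M` is
a normal subgroup of a subgroup `G` of `A` such that the elements of `T j` are, for every `j`, conjugate in `A`
to elements of a coset of `M` in `G`, and if `N` is a subgroup of `A` with an element `y` of the normalizer of `N`
in `A` such that all elements of some coset `M * g` (`g` in `G`) are conjugate in `A` to elements of `N * y`,
then the orbits of `N` are stable under the dualities.  Then `V_ℓ` is semisimple, over all finite extensions
of the base field, for all prime numbers `ℓ` outside of a set of natural density zero.

The condition is satisfied, for example, in the following cases (see `forces_of_invariable` and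
`forces_of_central`): the types at one prime `p` and one `τ` contain `1` and generate `A` invariably;
or `A = W * Z` with a central subgroup `Z`, these types contain `1` and a set which generates `W` invariably,
and the complex conjugation preserves the orbits of `W`.  The representation `V_ℓ` may be reducible.

So the semisimplicity conjecture holds at `100` percent of the primes if the image of the Galois group is
large at a single prime `p`, in the following sense: the identity component `G` of the `p`-adic monodromy
group is split, and its Weyl group `W` is the full automorphism group `A` of the set of weights, or the
condition above holds for the set `W` of types (this is the case for the general symplectic groups, odd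
and even orthogonal groups, `G_2`, spin representations of `B_n`, `E_7` in dimension `56`, ..., and
for many sums of such representations).
Nothing is assumed about the motivic Galois group or the Mumford-Tate group: it may be larger than
`G`, and even of larger rank, that is, it is not supposed that the Tate tensors at `p` are algebraic or
motivated.  (For systems where the rank of the motivic group is known to be `r` the semisimplicity is
known for all `ℓ`: `RankAtOnePrime`.)

Earlier results without assumptions on the rank of the motivic group: `RelationFreeFrobenius` (all `ℓ`, if
there are no relations of isotropic type between the Frobenius eigenvalues; for example for `E_7` and for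
the spin representations there are many such relations), and a theorem at `100` percent of the primes
(`SemisimpleDensityOne`) if the intersection `F` of the splitting fields of the Frobenius
polynomials of finitely many places is `ℚ`.  Here there is no condition on splitting fields.

Idea of the proof.  Call a place good if no quotient of two Frobenius eigenvalues is a root of unity and
if there are `r` multiplicatively independent ones.
(1) Given types at finitely many primes `p_j`, there is a good place `v` whose Frobenius eigenvalues have, for
suitable orderings, the same relations, and the same action of the Galois group of `ℚ_{p_j}`, for all `j`
(one approximates tangent vectors; only finitely many relations have to be avoided, since the sizes of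
the relations between Weil numbers with `N` and the degree of `K` fixed are bounded, and a lattice of
relations of the right rank which is contained in `R` up to finitely many possibilities is equal to `R`).
(2) Let `F` be the intersection of the splitting fields of the `P v` for all good `v`.  By (1) there is a
good place `v` with Galois groups `M ≤ G ≤ A` over `F` and over `ℚ` as in the condition.  By an argument with
extensions of `F` which are independent over `F`, for all `ℓ` outside of a set of density zero, all
elements of `M * g` occur at good places as the action of a fixed Frobenius element of the Galois group of
`ℚ_ℓ` on the eigenvalues, where `g` depends on the Frobenius at `ℓ` in `F`.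
(3) Let `U` be a subspace of `V_ℓ`, over the algebraic closure of `ℚ_ℓ`, which is stable under an open
subgroup.  At every good place, `U` determines a set of Frobenius eigenvalues.  For two good
places consider the pencil of tangent vectors which is spanned by the logarithms of the Frobenius
elements: its members have at most `r` independent eigenvalues, so there is a bijection between the two
sets of eigenvalues which preserves the relations and the sets determined by all `U` at the same
time.  The Frobenius element of `ℚ_ℓ` permutes the subspaces `U`; so we obtain a group `N` which preserves
the sets of all `U`, and a coset `N * y` which contains conjugates of all elements of `M * g`.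
(4) The complex conjugation is a duality, so the set of eigenvalues of an invariant subspace `W` over `ℚ_ℓ` is
stable under `z ↦ q_v ^ wt / z`.  It follows that `W` does not meet its orthogonal complement.
-/

set_option autoImplicit false

namespace Pool.Agent.Results.MP_b4801b_ag.ZeroOneLaw

open NumberField IsDedekindDomain Polynomial Module Pool.Agent.Y114.TF Pool.Agent.Y114.GF
  Pool.Agent.Y114.MU Pool.Agent.Y114.RM Pool.Agent.R931.GD Pool.Agent.R931.ZL Pool.Agent.R931.ZM
  Pool.Agent.R931.ZF

theorem result (K : Type) [Field K] [NumberField K] (Γ : Type) [Group Γ] [TopologicalSpace Γ]
    [IsTopologicalGroup Γ] [CompactSpace Γ] (s : Gal(AlgebraicClosure K/K) →* Γ)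
    (hs : Continuous s)
    -- the `ℓ`-adic realizations, with the polarizations
    (N : ℕ) (hN : 0 < N)
    (ρ : ∀ (ℓ : ℕ) [Fact ℓ.Prime], Rep1 Γ N ℓ) (hρ : ∀ (ℓ : ℕ) [Fact ℓ.Prime], Conts (ρ ℓ))
    (hpol : ∀ (ℓ : ℕ) [Fact ℓ.Prime], Polarized (ρ ℓ))
    -- good reduction outside of a finite set of places
    (wt : ℤ) (c : ℕ) (S : Set (HeightOneSpectrum (𝓞 K))) (hS : S.Finite)
    (P : HeightOneSpectrum (𝓞 K) → ℚ[X])
    (hP : ∀ (ℓ : ℕ) [Fact ℓ.Prime], ∀ v ∉ S, ¬ Above v ℓ →
      GoodReduction (restrictTo (ρ ℓ) s) () wt v (P v))
    (hint : ∀ v ∉ S, IntegralAt c v (P v))
    -- at most `r` independent eigenvalues
    (r : ℕ) (hrank : ∀ v ∉ S, ¬ IndepRoots (r + 1) {P v})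
    -- the relations, and their automorphism group
    (R : Set (Fin N → ℤ)) (hR : RankGE r R)
    -- the types at some prime numbers
    (J : Type) (T : J → Set (Equiv.Perm (Fin N))) (hne : ∃ j, (T j).Nonempty)
    (p : J → ℕ) [∀ j, Fact (p j).Prime] (τ : ∀ j, Gal(PadicAlgCl (p j)/ℚ_[p j]))
    (htypes : ∀ j, ∀ a ∈ T j, TypeOccurs s (ρ (p j)) R (τ j) a)
    (hm : Forces (relAut R) T (SelfDualOrbits R)) :
    HasDensityZero {ℓ | ∃ _ : Fact ℓ.Prime, ¬ Semisimple (ρ ℓ)} :=
  main_semiF (K := K) (Γ := Γ) (s := s) (N := N) (wt := wt) (c := c) (r := r) (S := S) (P := P)
    (ρ := ρ) ⟨hN, hs, hρ, hS, hP, hint, fun v hv => hrank v hv.1⟩ hpol R hR T hne p τ htypes hm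

end Pool.Agent.Results.MP_b4801b_ag.ZeroOneLaw
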